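import Pool.Agent.X144.OS.Pf

/-!
# The coefficients of `(y - x) / ((1 - xy)(1 - x - y))` and the binomial transform
-/

namespace Pool.Agent.X144.OS

open Finset

/-- The coefficient `c_{ab}` of `x^a y^b` in `(y - x) / ((1 - xy)(1 - x - y))`. -/
def c : ℕ → ℕ → ℚ
  | 0, 0 => 0
  | 0, _ + 1 => 1
  | _ + 1, 0 => -1
  | 1, 1 => 0
  | 1, b + 2 => b + 2
  | a + 2, 1 => -(a + 2)
  | a + 2, b + 2 => c (a + 1) (b + 2) + c (a + 2) (b + 1) + c (a + 1) (b + 1) - c a (b + 1)
      - c (a + 1) b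
  termination_by a b => a + b

theorem c00 : c 0 0 = 0 := by simp [c]
theorem c0s (b : ℕ) : c 0 (b + 1) = 1 := by simp [c]
theorem cs0 (a : ℕ) : c (a + 1) 0 = -1 := by simp [c]
theorem c11 : c 1 1 = 0 := by simp [c]
theorem c1s (b : ℕ) : c 1 (b + 2) = b + 2 := by simp [c]
theorem cs1 (a : ℕ) : c (a + 2) 1 = -(a + 2) := by simp [c]
theorem css (a b : ℕ) : c (a + 2) (b + 2) = c (a + 1) (b + 2) + c (a + 2) (b + 1)
    + c (a + 1) (b + 1) - c a (b + 1) - c (a + 1) b := by
  rw [c]

theorem c_antisymm : ∀ (n a b : ℕ), a + b = n → c b a = - c a b := by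
  intro n
  induction n using Nat.strong_induction_on with
  | _ n ih =>
    intro a b hab
    match a, b with
    | 0, 0 => simp [c00]
    | 0, b + 1 => rw [cs0, c0s]
    | a + 1, 0 => rw [cs0, c0s]; norm_num
    | 1, 1 => simp [c11]
    | 1, b + 2 => rw [cs1, c1s]
    | a + 2, 1 => rw [cs1, c1s]; ring
    | a + 2, b + 2 =>
      rw [css, css, ih _ (by omega) (a + 1) (b + 2) rfl, ih _ (by omega) (a + 2) (b + 1) rfl,
        ih _ (by omega) (a + 1) (b + 1) rfl, ih _ (by omega) a (b + 1) rfl,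
        ih _ (by omega) (a + 1) b rfl]
      ring

/-- The binomial transform. -/
def bt (f : ℕ → ℚ) (a : ℕ) : ℚ := ∑ i ∈ range (a + 1), (-1) ^ i * (a.choose i : ℚ) * f i

theorem bt_zero (f : ℕ → ℚ) : bt f 0 = f 0 := by simp [bt]

theorem bt_succ (f : ℕ → ℚ) (a : ℕ) : bt f (a + 1) = bt f a - bt (fun i => f (i + 1)) a := by
  have h1 : bt f a = ∑ i ∈ range (a + 1), (-1) ^ (i + 1) * (a.choose (i + 1) : ℚ) * f (i + 1)
      + f 0 := by
    have h2 : bt f a = ∑ i ∈ range (a + 2), (-1) ^ i * (a.choose i : ℚ) * f i := by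
      rw [Finset.sum_range_succ _ (a + 1)]
      simp [bt]
    rw [h2, Finset.sum_range_succ' _ (a + 1)]
    simp
  rw [h1]
  unfold bt
  rw [Finset.sum_range_succ' _ (a + 1), ← sub_eq_zero]
  have h3 : ∀ i, ((a + 1).choose (i + 1) : ℚ) = a.choose i + a.choose (i + 1) := by
    intro i
    rw [Nat.choose_succ_succ]; push_cast; ring
  simp only [h3]
  simp only [pow_zero, Nat.choose_zero_right, Nat.cast_one, one_mul]
  rw [show (∑ i ∈ range (a + 1), (-1 : ℚ) ^ (i + 1) * (↑(a.choose i) + ↑(a.choose (i + 1)))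
      * f (i + 1)) + f 0
      - (∑ i ∈ range (a + 1), (-1 : ℚ) ^ (i + 1) * ↑(a.choose (i + 1)) * f (i + 1) + f 0
        - ∑ i ∈ range (a + 1), (-1 : ℚ) ^ i * ↑(a.choose i) * f (i + 1))
      = ∑ i ∈ range (a + 1), ((-1 : ℚ) ^ (i + 1) * (↑(a.choose i) + ↑(a.choose (i + 1)))
      * f (i + 1) - (-1 : ℚ) ^ (i + 1) * ↑(a.choose (i + 1)) * f (i + 1)
        + (-1 : ℚ) ^ i * ↑(a.choose i) * f (i + 1)) by
    rw [Finset.sum_add_distrib, Finset.sum_sub_distrib]; ring]
  apply Finset.sum_eq_zero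
  intro i _
  rw [pow_succ]; ring

theorem bt_add (f g : ℕ → ℚ) (a : ℕ) : bt (fun i => f i + g i) a = bt f a + bt g a := by
  simp only [bt, mul_add, Finset.sum_add_distrib]

theorem bt_sub (f g : ℕ → ℚ) (a : ℕ) : bt (fun i => f i - g i) a = bt f a - bt g a := by
  simp only [bt, mul_sub, Finset.sum_sub_distrib]

theorem bt_neg (f : ℕ → ℚ) (a : ℕ) : bt (fun i => - f i) a = - bt f a := by
  simp only [bt, mul_neg, Finset.sum_neg_distrib]

theorem bt_const (x : ℚ) (a : ℕ) : bt (fun _ => x) (a + 1) = 0 := by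
  rw [bt_succ]; ring

/-- The double transform. -/
def dt (f : ℕ → ℕ → ℚ) (a b : ℕ) : ℚ := bt (fun i => bt (fun j => f i j) b) a

theorem dt_swap (f : ℕ → ℕ → ℚ) (a b : ℕ) : dt f a b = dt (fun i j => f j i) b a := by
  unfold dt bt
  simp only [Finset.mul_sum]
  rw [Finset.sum_comm]
  apply Finset.sum_congr rfl
  intro j _
  apply Finset.sum_congr rfl
  intro i _
  ring

theorem dt_a (f : ℕ → ℕ → ℚ) (a b : ℕ) :
    dt f (a + 1) b = dt f a b - dt (fun i j => f (i + 1) j) a b := by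
  unfold dt
  rw [bt_succ]

theorem dt_b (f : ℕ → ℕ → ℚ) (a b : ℕ) :
    dt f a (b + 1) = dt f a b - dt (fun i j => f i (j + 1)) a b := by
  unfold dt
  simp only [bt_succ]
  rw [bt_sub]

theorem dt_rec (a b : ℕ) : dt c (a + 2) (b + 2) = dt c (a + 1) (b + 2) + dt c (a + 2) (b + 1)
    + dt c (a + 1) (b + 1) - dt c a (b + 1) - dt c (a + 1) b := by
  have hz : dt (fun i j => c (i + 1 + 1) (j + 1 + 1)) a b
      = dt (fun i j => c (i + 1) (j + 1 + 1)) a b + dt (fun i j => c (i + 1 + 1) (j + 1)) a b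
        + dt (fun i j => c (i + 1) (j + 1)) a b - dt (fun i j => c i (j + 1)) a b
        - dt (fun i j => c (i + 1) j) a b := by
    have : (fun i j => c (i + 1 + 1) (j + 1 + 1)) = fun i j => c (i + 1) (j + 1 + 1)
        + c (i + 1 + 1) (j + 1) + c (i + 1) (j + 1) - c i (j + 1) - c (i + 1) j := by
      funext i j
      exact css i j
    rw [this]
    unfold dt
    simp only [bt_sub, bt_add]
  have e : ∀ x, x + 2 = x + 1 + 1 := fun _ => rfl
  simp only [e, dt_a, dt_b]
  linear_combination hz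

theorem dt_row0 (b : ℕ) : bt (fun j => c 0 j) b = - c 0 b := by
  have h : ∀ b, bt (fun j => c 0 j) (b + 1) = -1 := by
    intro b
    induction b with
    | zero =>
      rw [bt_succ, bt_zero, bt_zero, c00, c0s]; norm_num
    | succ b ih =>
      rw [bt_succ, ih]
      have : (fun j => c 0 (j + 1)) = fun _ => (1 : ℚ) := by funext j; exact c0s j
      rw [this, bt_const]; norm_num
  cases b with
  | zero => rw [bt_zero, c00]; norm_num
  | succ b => rw [h, c0s]

theorem bt_lin : ∀ b, bt (fun j => (j : ℚ) + 2) b = if b = 0 then 2 else if b = 1 then -1 else 0 := by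
  intro b
  match b with
  | 0 => rw [bt_zero]; norm_num
  | 1 => rw [bt_succ, bt_zero, bt_zero]; norm_num
  | b + 2 =>
    rw [bt_succ, bt_succ]
    have h1 : bt (fun i => ((i : ℕ) : ℚ) + 2) b - bt (fun i => (((i + 1 : ℕ)) : ℚ) + 2) b
        = bt (fun _ => (-1 : ℚ)) b := by
      rw [← bt_sub]
      congr 1
      funext i
      push_cast; ring
    have h2 : bt (fun i => (((i + 1 : ℕ)) : ℚ) + 2) (b + 1)
        = bt (fun i => (((i + 1 : ℕ)) : ℚ) + 2) b - bt (fun i => (((i + 1 + 1 : ℕ)) : ℚ) + 2) b :=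
      bt_succ _ b
    have h3 : bt (fun i => (((i + 1 : ℕ)) : ℚ) + 2) b - bt (fun i => (((i + 1 + 1 : ℕ)) : ℚ) + 2) b
        = bt (fun _ => (-1 : ℚ)) b := by
      rw [← bt_sub]
      congr 1
      funext i
      push_cast; ring
    rw [h1, h2, h3]
    simp

theorem bt_c1' : ∀ b, bt (fun j => c 1 (j + 1)) b
    = if b = 0 then 0 else if b = 1 then -2 else -1 := by
  intro b
  induction b with
  | zero => rw [bt_zero, c11]; simp
  | succ b ih =>
    rw [bt_succ, ih]
    have : (fun j => c 1 (j + 1 + 1)) = fun j : ℕ => (j : ℚ) + 2 := by funext j; exact c1s j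
    rw [this, bt_lin]
    match b with
    | 0 => norm_num
    | 1 => norm_num
    | b + 2 => simp

theorem bt_c1 : ∀ b : ℕ, bt (fun j => c 1 j) (b + 1) = if b = 0 then -1 else (b : ℚ) := by
  intro b
  induction b with
  | zero => rw [bt_succ, bt_zero, bt_zero, cs0, c11]; norm_num
  | succ b ih =>
    rw [bt_succ, ih, bt_c1']
    match b with
    | 0 => norm_num
    | b + 1 => simp

theorem dt_row1 (b : ℕ) : dt c 1 b = - c 1 b := by
  have h : dt c 1 b = bt (fun j => c 0 j) b - bt (fun j => c 1 j) b := by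
    unfold dt
    rw [bt_succ, bt_zero, bt_zero]
  rw [h, dt_row0]
  match b with
  | 0 => rw [bt_zero, c00, cs0]; norm_num
  | 1 => rw [bt_c1, c0s, c11]; norm_num
  | b + 2 => rw [bt_c1, c0s, c1s]; simp; ring

/-- **The double binomial transform of `c` is `-c`.** -/
theorem dt_c : ∀ (n a b : ℕ), a + b = n → dt c a b = - c a b := by
  intro n
  induction n using Nat.strong_induction_on with
  | _ n ih =>
    intro a b hab
    have hrow0 : ∀ b, dt c 0 b = - c 0 b := by
      intro b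
      unfold dt
      rw [bt_zero]
      exact dt_row0 b
    have hsw : ∀ a b, dt c a b = - dt c b a := by
      intro a b
      rw [dt_swap]
      have : (fun i j => c j i) = fun i j => - c i j := by
        funext i j
        exact c_antisymm _ i j rfl
      rw [this]
      unfold dt
      simp only [bt_neg]
    match a, b with
    | 0, b => exact hrow0 b
    | 1, b => exact dt_row1 b
    | a + 2, 0 => rw [hsw, hrow0, c_antisymm _ 0 (a + 2) rfl]
    | a + 2, 1 => rw [hsw, dt_row1, c_antisymm _ 1 (a + 2) rfl]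
    | a + 2, b + 2 =>
      rw [dt_rec, css, ih _ (by omega) (a + 1) (b + 2) rfl, ih _ (by omega) (a + 2) (b + 1) rfl,
        ih _ (by omega) (a + 1) (b + 1) rfl, ih _ (by omega) a (b + 1) rfl,
        ih _ (by omega) (a + 1) b rfl]
      ring

/-- The binomial transform of `(-1)^a` is `2^a`. -/
theorem bt_pow (a : ℕ) : bt (fun i => (-1 : ℚ) ^ i) a = 2 ^ a := by
  unfold bt
  have h := add_pow (1 : ℚ) 1 a
  rw [show (2 : ℚ) = 1 + 1 by norm_num, h]
  apply Finset.sum_congr rfl
  intro i _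
  have : ((-1 : ℚ) ^ i) * ((-1 : ℚ) ^ i) = 1 := by rw [← mul_pow]; simp
  linear_combination (a.choose i : ℚ) * this

end Pool.Agent.X144.OS
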