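import Pool.Agent.X144.OS.Bin

/-!
# The Pfaffian identity
-/

namespace Pool.Agent.X144.OS

open Finset

/-- The skew-symmetric array with entries `c_{ab}` for `a, b < N` and last column `w`. -/
def bord (N : ℕ) (w : ℕ → ℚ) : Matrix (Fin (N + 1)) (Fin (N + 1)) ℚ := fun a b =>
  if (a : ℕ) < N then (if (b : ℕ) < N then c a b else w a)
  else (if (b : ℕ) < N then - w b else 0)

/-- The signed binomial matrix, with last diagonal entry `-1`. -/
def LG (N : ℕ) : Matrix (Fin (N + 1)) (Fin (N + 1)) ℚ := fun a i =>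
  if (a : ℕ) < N then (if (i : ℕ) < N then (-1) ^ (i : ℕ) * ((a : ℕ).choose i : ℚ) else 0)
  else (if (i : ℕ) < N then 0 else -1)

theorem sum_bt (N a : ℕ) (ha : a < N) (f : ℕ → ℚ) :
    ∑ i : Fin N, (-1) ^ (i : ℕ) * (a.choose i : ℚ) * f i = bt f a := by
  rw [← Finset.sum_range (fun i => (-1 : ℚ) ^ i * (a.choose i : ℚ) * f i)]
  unfold bt
  symm
  apply Finset.sum_subset
  · intro i hi
    rw [Finset.mem_range] at hi ⊢
    omega
  · intro i _ hi
    rw [Finset.mem_range, not_lt] at hi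
    rw [Nat.choose_eq_zero_of_lt (by omega)]
    simp

theorem LG_conj (N : ℕ) (w : ℕ → ℚ) :
    LG N * bord N w * (LG N).transpose = - bord N (bt w) := by
  ext a b
  rw [Matrix.mul_apply]
  simp only [Matrix.mul_apply, Matrix.transpose_apply, Matrix.neg_apply]
  simp only [Fin.sum_univ_castSucc]
  refine Fin.lastCases ?_ (fun a => ?_) a <;> refine Fin.lastCases ?_ (fun b => ?_) b
  · simp [LG, bord]
  · simp only [LG, bord, Fin.val_last, lt_irrefl, if_false, Fin.val_castSucc, Fin.is_lt, if_true,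
      zero_mul, Finset.sum_const_zero, zero_add, mul_zero, add_zero]
    rw [← sum_bt N b b.2 w, neg_neg]
    apply Finset.sum_congr rfl
    intro j _
    ring
  · simp only [LG, bord, Fin.val_last, lt_irrefl, if_false, Fin.val_castSucc, Fin.is_lt, if_true,
      zero_mul, Finset.sum_const_zero, zero_add, mul_zero, add_zero]
    rw [← sum_bt N a a.2 w]
    ring
  · simp only [LG, bord, Fin.val_last, lt_irrefl, if_false, Fin.val_castSucc, Fin.is_lt, if_true,
      zero_mul, mul_zero, add_zero]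
    rw [← dt_c _ (a : ℕ) (b : ℕ) rfl]
    unfold dt
    rw [← sum_bt N a a.2]
    simp only [← sum_bt N b b.2]
    simp only [Finset.sum_mul, Finset.mul_sum]
    rw [Finset.sum_comm]
    apply Finset.sum_congr rfl
    intro i _
    apply Finset.sum_congr rfl
    intro j _
    ring

theorem det_LG (N : ℕ) : (LG N).det = - ∏ a ∈ range N, (-1 : ℚ) ^ a := by
  rw [Matrix.det_of_lowerTriangular]
  · rw [Fin.prod_univ_castSucc]
    have h1 : LG N (Fin.last N) (Fin.last N) = -1 := by simp [LG]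
    rw [h1, Finset.prod_range]
    have h2 : ∀ a : Fin N, LG N a.castSucc a.castSucc = (-1) ^ (a : ℕ) := by
      intro a; simp [LG]
    simp only [h2]
    ring
  · intro a b hab
    have hab' : (a : ℕ) < (b : ℕ) := hab
    simp only [LG]
    split_ifs with h1 h2 h3
    · rw [Nat.choose_eq_zero_of_lt hab']; simp
    · rfl
    · rfl
    · exfalso; have := b.2; omega

theorem prod_sign (n : ℕ) : ∏ a ∈ range (2 * n + 1), (-1 : ℚ) ^ a = (-1) ^ n := by
  induction n with
  | zero => simp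
  | succ n ih =>
    rw [show 2 * (n + 1) + 1 = 2 * n + 1 + 1 + 1 by ring, Finset.prod_range_succ,
      Finset.prod_range_succ, ih]
    have e1 : (-1 : ℚ) ^ (2 * n + 1) = -1 := by rw [pow_succ, pow_mul]; simp
    have e2 : (-1 : ℚ) ^ (2 * n + 1 + 1) = 1 := by rw [pow_succ, e1]; norm_num
    rw [e1, e2, pow_succ]; ring

/-- The array of size `2n + 2` with last column `w`. -/
def arr (n : ℕ) (w : ℕ → ℚ) : Matrix (Fin (2 * (n + 1))) (Fin (2 * (n + 1))) ℚ :=
  bord (2 * n + 1) w

/-- **The Pfaffian is invariant under the binomial transform of the last column.** -/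
theorem pf_bt (n : ℕ) (w : ℕ → ℚ) : pf (arr n (bt w)) = pf (arr n w) := by
  have h1 := pf_congr (m := n + 1) (arr n w) (LG (2 * n + 1) :
    Matrix (Fin (2 * (n + 1))) (Fin (2 * (n + 1))) ℚ)
  have h2 : (LG (2 * n + 1) : Matrix (Fin (2 * (n + 1))) (Fin (2 * (n + 1))) ℚ) * arr n w
      * (LG (2 * n + 1) : Matrix (Fin (2 * (n + 1))) (Fin (2 * (n + 1))) ℚ).transpose
      = - arr n (bt w) := LG_conj (2 * n + 1) w
  have h3 : (LG (2 * n + 1) : Matrix (Fin (2 * (n + 1))) (Fin (2 * (n + 1))) ℚ).det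
      = (-1) ^ (n + 1) := by
    have := det_LG (2 * n + 1)
    rw [prod_sign] at this
    rw [pow_succ]
    refine this.trans ?_
    ring
  rw [h2, h3, pf_neg] at h1
  have h4 : ((-1 : ℚ) ^ (n + 1)) ≠ 0 := pow_ne_zero _ (by norm_num)
  exact mul_left_cancel₀ h4 h1

theorem pf_half_aux (n : ℕ) (u v : ℕ → ℚ) (σ : Equiv.Perm (Fin (2 * (n + 1)))) :
    ∏ i : Fin (n + 1), arr n (fun a => (u a + v a) / 2) (σ (pr (n + 1) i 0)) (σ (pr (n + 1) i 1))
      = (∏ i : Fin (n + 1), arr n u (σ (pr (n + 1) i 0)) (σ (pr (n + 1) i 1))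
        + ∏ i : Fin (n + 1), arr n v (σ (pr (n + 1) i 0)) (σ (pr (n + 1) i 1))) / 2 := by
  -- the pair containing the last index
  set L : Fin (2 * (n + 1)) := Fin.last (2 * n + 1) with hL
  set i0 : Fin (n + 1) := ((ee (n + 1)).symm (σ.symm L)).1 with hi0
  have hother : ∀ i : Fin (n + 1), i ≠ i0 → ∀ j : Fin 2, ((σ (pr (n + 1) i j) : ℕ)) < 2 * n + 1 := by
    intro i hi j
    have h1 := (σ (pr (n + 1) i j)).2
    by_contra hlt
    have h2 : σ (pr (n + 1) i j) = L := by
      apply Fin.ext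
      rw [hL]
      have : ((Fin.last (2 * n + 1) : Fin (2 * n + 1 + 1)) : ℕ) = 2 * n + 1 := rfl
      omega
    have h3 : pr (n + 1) i j = σ.symm L := by rw [← h2]; simp
    apply hi
    rw [hi0, ← h3]
    have h4 : (ee (n + 1)).symm (pr (n + 1) i j) = (i, j) := (ee (n + 1)).left_inv (i, j)
    rw [h4]
  have hprod : ∀ w : ℕ → ℚ, ∏ i : Fin (n + 1), arr n w (σ (pr (n + 1) i 0)) (σ (pr (n + 1) i 1))
      = arr n w (σ (pr (n + 1) i0 0)) (σ (pr (n + 1) i0 1))
        * ∏ i ∈ Finset.univ.erase i0, c (σ (pr (n + 1) i 0)) (σ (pr (n + 1) i 1)) := by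
    intro w
    rw [← Finset.mul_prod_erase Finset.univ _ (Finset.mem_univ i0)]
    congr 1
    apply Finset.prod_congr rfl
    intro i hi
    have hne := (Finset.mem_erase.1 hi).1
    have a1 := hother i hne 0
    have a2 := hother i hne 1
    change (if ((σ (pr (n + 1) i 0) : Fin (2 * (n + 1))) : ℕ) < 2 * n + 1 then _ else _) = _
    rw [if_pos a1, if_pos a2]
  rw [hprod, hprod, hprod, ← add_mul, mul_div_right_comm]
  congr 1
  simp only [arr, bord]
  split_ifs <;> ring

/-- The Pfaffian is linear in the last column. -/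
theorem pf_half (n : ℕ) (u v : ℕ → ℚ) :
    pf (arr n (fun a => (u a + v a) / 2)) = (pf (arr n u) + pf (arr n v)) / 2 := by
  have key : ∀ σ : Equiv.Perm (Fin (2 * (n + 1))),
      ∏ i : Fin (n + 1), arr n (fun a => (u a + v a) / 2) (σ (pr (n + 1) i 0)) (σ (pr (n + 1) i 1))
      = (∏ i : Fin (n + 1), arr n u (σ (pr (n + 1) i 0)) (σ (pr (n + 1) i 1))
        + ∏ i : Fin (n + 1), arr n v (σ (pr (n + 1) i 0)) (σ (pr (n + 1) i 1))) / 2 := by
    intro σ
    exact pf_half_aux n u v σ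
  unfold pf
  simp only [key]
  have h : ∀ σ : Equiv.Perm (Fin (2 * (n + 1))), ((Equiv.Perm.sign σ : ℤ) : ℚ)
      * ((∏ i : Fin (n + 1), arr n u (σ (pr (n + 1) i 0)) (σ (pr (n + 1) i 1))
        + ∏ i : Fin (n + 1), arr n v (σ (pr (n + 1) i 0)) (σ (pr (n + 1) i 1))) / 2)
      = (((Equiv.Perm.sign σ : ℤ) : ℚ)
      * ∏ i : Fin (n + 1), arr n u (σ (pr (n + 1) i 0)) (σ (pr (n + 1) i 1))
      + ((Equiv.Perm.sign σ : ℤ) : ℚ)
      * ∏ i : Fin (n + 1), arr n v (σ (pr (n + 1) i 0)) (σ (pr (n + 1) i 1))) / 2 := by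
    intro σ; ring
  rw [Finset.sum_congr rfl (fun σ _ => h σ), ← Finset.sum_div, Finset.sum_add_distrib]
  ring

/-- **The Pfaffian identity.** -/
theorem pf_identity (n : ℕ) :
    pf (arr n (fun a => (-1) ^ a)) = pf (arr n (fun a => ((-1) ^ a + 2 ^ a) / 2)) := by
  have h1 := pf_bt n (fun a => (-1) ^ a)
  have h2 : bt (fun a => (-1 : ℚ) ^ a) = fun a => 2 ^ a := by funext a; exact bt_pow a
  rw [h2] at h1
  rw [pf_half, h1]
  ring

/-! ### The generating function -/

/-- The power series `∑ c_{ab} x^a y^b`, as a power series in `y` over power series in `x`. -/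
noncomputable def cser : PowerSeries (PowerSeries ℚ) :=
  PowerSeries.mk (fun b => PowerSeries.mk (fun a => c a b))

/-- The variable `x`. -/
noncomputable def vx : PowerSeries (PowerSeries ℚ) := PowerSeries.C PowerSeries.X

/-- The variable `y`. -/
noncomputable def vy : PowerSeries (PowerSeries ℚ) := PowerSeries.X

theorem cser_eq : (1 - vx * vy) * (1 - vx - vy) * cser = vy - vx := by
  have e : (1 - vx * vy) * (1 - vx - vy) * cser
      = cser - vx * cser - vy * cser - vy * (vx * cser) + vy * (vx * (vx * cser))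
        + vy * (vy * (vx * cser)) := by ring
  rw [e]
  ext b a
  have X1 : ∀ (φ : PowerSeries (PowerSeries ℚ)) (b a : ℕ),
      PowerSeries.coeff (a + 1) (PowerSeries.coeff b (vx * φ))
        = PowerSeries.coeff a (PowerSeries.coeff b φ) := by
    intro φ b a
    rw [vx, PowerSeries.coeff_C_mul, PowerSeries.coeff_succ_X_mul]
  have X0 : ∀ (φ : PowerSeries (PowerSeries ℚ)) (b : ℕ),
      PowerSeries.coeff 0 (PowerSeries.coeff b (vx * φ)) = 0 := by
    intro φ b
    rw [vx, PowerSeries.coeff_C_mul, PowerSeries.coeff_zero_X_mul]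
  have Y1 : ∀ (φ : PowerSeries (PowerSeries ℚ)) (b a : ℕ),
      PowerSeries.coeff a (PowerSeries.coeff (b + 1) (vy * φ))
        = PowerSeries.coeff a (PowerSeries.coeff b φ) := by
    intro φ b a
    rw [vy, PowerSeries.coeff_succ_X_mul]
  have Y0 : ∀ (φ : PowerSeries (PowerSeries ℚ)) (a : ℕ),
      PowerSeries.coeff a (PowerSeries.coeff 0 (vy * φ)) = 0 := by
    intro φ a
    rw [vy, PowerSeries.coeff_zero_X_mul, map_zero]
  have C0 : ∀ b a, PowerSeries.coeff a (PowerSeries.coeff b cser) = c a b := by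
    intro b a
    rw [cser, PowerSeries.coeff_mk, PowerSeries.coeff_mk]
  have VX : ∀ b a, PowerSeries.coeff a (PowerSeries.coeff b vx)
      = if b = 0 ∧ a = 1 then 1 else 0 := by
    intro b a
    rw [vx, PowerSeries.coeff_C]
    split_ifs with h1 h2 h2
    · rw [h2.2, PowerSeries.coeff_one_X]
    · rw [PowerSeries.coeff_X, if_neg (fun h => h2 ⟨h1, h⟩)]
    · exact absurd h2.1 h1
    · rw [map_zero]
  have VY : ∀ b a, PowerSeries.coeff a (PowerSeries.coeff b vy)
      = if b = 1 ∧ a = 0 then 1 else 0 := by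
    intro b a
    rw [vy, PowerSeries.coeff_X]
    split_ifs with h1 h2 h2
    · rw [h2.2, PowerSeries.coeff_one, if_pos rfl]
    · rw [PowerSeries.coeff_one, if_neg (fun h => h2 ⟨h1, h⟩)]
    · exact absurd h2.1 h1
    · rw [map_zero]
  have e2 : ∀ x : ℕ, x + 2 = x + 1 + 1 := fun _ => rfl
  simp only [map_add, map_sub]
  match b, a with
  | 0, 0 => simp only [X0, Y0, C0, VX, VY, c00]; norm_num
  | 0, 1 => simp only [X1, X0, Y0, C0, VX, VY]; simp [c00, cs0]
  | 0, a + 2 =>
    simp only [e2, X1, X0, Y0, C0, VX, VY]; simp [cs0]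
  | 1, 0 => simp only [X1, X0, Y0, Y1, C0, VX, VY]; simp [c00, c0s]
  | 1, 1 => simp only [X1, X0, Y0, Y1, C0, VX, VY]; simp [c00, c0s, cs0, c11]
  | 1, a + 2 =>
    have e3 : c (a + 1 + 1) 1 = -((a : ℚ) + 2) := cs1 a
    simp only [e2, X1, X0, Y0, Y1, C0, VX, VY, e3]
    match a with
    | 0 => simp [cs0, c11, c00]; norm_num
    | a + 1 =>
      have e4 : c (a + 1 + 1) 1 = -((a : ℚ) + 2) := cs1 a
      simp only [e4]
      simp [cs0]
  | b + 2, 0 => simp only [e2, X1, X0, Y0, Y1, C0, VX, VY]; simp [c0s]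
  | b + 2, 1 =>
    have e3 : c 1 (b + 1 + 1) = (b : ℚ) + 2 := c1s b
    simp only [e2, X1, X0, Y0, Y1, C0, VX, VY, e3]
    match b with
    | 0 => simp [c0s, c11, c00]; norm_num
    | b + 1 =>
      have e4 : c 1 (b + 1 + 1) = (b : ℚ) + 2 := c1s b
      simp only [e4]
      simp [c0s]
      ring
  | b + 2, a + 2 =>
    have e3 := css a b
    simp only [e2, X1, X0, Y0, Y1, C0, VX, VY] at e3 ⊢
    rw [e3]
    simp
    ring

end Pool.Agent.X144.OS
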